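import Mathlib

namespace Pool.Agent.H.MP_ab672e_co

def d2 (p q : ℤ × ℤ) : ℤ := (p.1 - q.1) * (p.1 - q.1) + (p.2 - q.2) * (p.2 - q.2)

def good (D : ℤ) (v p : ℤ × ℤ) : Bool := decide (d2 (p.1 * D, p.2 * D) v * 1156 ≤ 120250 * (D * D))

def g3 (D : ℤ) (A B C p : ℤ × ℤ) : Bool := good D A p && good D B p && good D C p

def chk : ℕ → ℤ → ℤ × ℤ → ℤ × ℤ → ℤ × ℤ → ℕ → List (ℤ × ℤ) → Bool
  | 0, _, _, _, _, _, _ => false
  | n + 1, D, A, B, C, k, L =>
    let k' := k + (L.filter (g3 D A B C)).length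
    let L' := L.filter fun p => !g3 D A B C p
    if 323 ≤ k' then true else if d2 B C ≤ d2 A B ∧ d2 C A ≤ d2 A B then
      chk n (2 * D) (2 * A.1, 2 * A.2) (A.1 + B.1, A.2 + B.2) (2 * C.1, 2 * C.2) k' L' &&
      chk n (2 * D) (A.1 + B.1, A.2 + B.2) (2 * B.1, 2 * B.2) (2 * C.1, 2 * C.2) k' L'
    else chk n D B C A k' L'

def In (D : ℤ) (A B C : ℤ × ℤ) (x y : ℝ) : Prop :=
  ∃ a b c : ℝ, 0 ≤ a ∧ 0 ≤ b ∧ 0 ≤ c ∧ a + b + c = 1 ∧ D * x = a * A.1 + b * B.1 + c * C.1 ∧
    D * y = a * A.2 + b * B.2 + c * C.2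

def G (x y : ℝ) (p : ℤ × ℤ) : Prop := ((p.1 - x) ^ 2 + (p.2 - y) ^ 2) * 1156 ≤ 120250

theorem cv {a b c : ℝ} (ha : 0 ≤ a) (hb : 0 ≤ b) (hc : 0 ≤ c) (h : a + b + c = 1) (u v w : ℝ) :
    (a * u + b * v + c * w) ^ 2 ≤ a * u ^ 2 + b * v ^ 2 + c * w ^ 2 := by
  have : a * u ^ 2 + b * v ^ 2 + c * w ^ 2 - (a * u + b * v + c * w) ^ 2 =
      a * b * (u - v) ^ 2 + a * c * (u - w) ^ 2 + b * c * (v - w) ^ 2 := by
    obtain rfl : c = 1 - a - b := by linarith
    ring
  have : 0 ≤ a * b * (u - v) ^ 2 + a * c * (u - w) ^ 2 + b * c * (v - w) ^ 2 := by positivity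
  linarith

theorem g3_G {D A B C x y p} (hD : 0 < D) (h : In D A B C x y) (k : g3 D A B C p = true) :
    G x y p := by
  obtain ⟨a, b, c, ha, hb, hc, h, hx, hy⟩ := h
  simp only [g3, good, d2, Bool.and_eq_true, decide_eq_true_eq, ← sq] at k
  obtain ⟨⟨k1, k2⟩, k3⟩ := k
  rify at k1 k2 k3 hD
  have e1 := cv ha hb hc h (p.1 * D - A.1) (p.1 * D - B.1) (p.1 * D - C.1)
  have e2 := cv ha hb hc h (p.2 * D - A.2) (p.2 * D - B.2) (p.2 * D - C.2)
  rw [show a * (p.1 * D - A.1) + b * (p.1 * D - B.1) + c * (p.1 * D - C.1) = D * (p.1 - x) by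
    linear_combination hx + p.1 * D * h] at e1
  rw [show a * (p.2 * D - A.2) + b * (p.2 * D - B.2) + c * (p.2 * D - C.2) = D * (p.2 - y) by
    linear_combination hy + p.2 * D * h] at e2
  refine le_of_mul_le_mul_right ?_ (pow_pos hD 2)
  have := mul_le_mul_of_nonneg_left k1 ha
  have := mul_le_mul_of_nonneg_left k2 hb
  have := mul_le_mul_of_nonneg_left k3 hc
  have : a * (120250 * D ^ 2) + b * (120250 * D ^ 2) + c * (120250 * D ^ 2) = 120250 * (D : ℝ) ^ 2 := by
    linear_combination 120250 * (D : ℝ) ^ 2 * h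
  linarith

open Classical in
theorem sound {x y : ℝ} : ∀ (n D A B C k L), 0 < D → In D A B C x y → chk n D A B C k L = true →
    323 ≤ k + L.countP fun p => decide (G x y p)
  | 0, _, _, _, _, _, _, _, _, h => by simp [chk] at h
  | n + 1, D, A, B, C, k, L, hD, hI, h => by
    rw [List.countP_eq_countP_filter_add _ _ (g3 D A B C), List.countP_eq_length.2 fun p hp =>
      decide_eq_true (g3_G hD hI (List.mem_filter.1 hp).2), ← add_assoc]
    obtain ⟨a, b, c, ha, hb, hc, h1, hx, hy⟩ := hI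
    unfold chk at h
    dsimp only at h
    split_ifs at h with k1 k2
    · exact k1.trans (Nat.le_add_right _ _)
    · rw [Bool.and_eq_true] at h
      rcases le_total a b with l | l
      · refine sound n _ _ _ _ _ _ (by omega) ⟨2 * a, b - a, c, by linarith, by linarith, hc,
          by linarith, ?_, ?_⟩ h.2 <;> push_cast <;> linarith
      · refine sound n _ _ _ _ _ _ (by omega) ⟨a - b, 2 * b, c, by linarith, by linarith, hc,
          by linarith, ?_, ?_⟩ h.1 <;> push_cast <;> linarith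
    · exact sound n _ _ _ _ _ _ hD ⟨b, c, a, hb, hc, ha, by linarith, by linarith, by linarith⟩ h

def xs : List ℤ := [-11, -10, -9, -8, -7, -6, -5, -4, -3, -2, -1, 0, 1, 2, 3, 4, 5, 6, 7, 8, 9, 10, 11]

def box : List (ℤ × ℤ) := xs ×ˢ xs

theorem nd : box.Nodup := List.Nodup.product (by decide) (by decide)

theorem c1 : chk 60 34 (0, 0) (9, 9) (17, 0) 0 box = true := by decide +kernel

theorem c2 : chk 60 34 (9, 9) (17, 3) (17, 0) 0 box = true := by decide +kernel

theorem c3 : chk 60 34 (9, 9) (17, 17) (17, 3) 0 box = true := by decide +kernel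

def P (x y : ℝ) : Prop := ∃ S : Finset (ℤ × ℤ), 323 ≤ S.card ∧ ∀ p ∈ S, G x y p

theorem base {x y : ℝ} (h1 : 0 ≤ y) (h2 : y ≤ x) (h3 : x ≤ 1 / 2) : P x y := by
  classical
  have : 323 ≤ 0 + box.countP fun p => decide (G x y p) := by
    rcases le_total (9 * (34 * x) + 8 * (34 * y)) 153 with a | a
    · refine sound 60 34 (0, 0) (9, 9) (17, 0) _ _ (by norm_num)
        ⟨(153 - 9 * (34 * x) - 8 * (34 * y)) / 153, 34 * y / 9, (34 * x - 34 * y) / 17, by linarith,
          by linarith, by linarith, by ring, ?_, ?_⟩ c1 <;> push_cast <;> ring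
    rcases le_total (3 * (34 * x) + 4 * (34 * y)) 63 with b | b
    · refine sound 60 34 (9, 9) (17, 3) (17, 0) _ _ (by norm_num)
        ⟨(17 - 34 * x) / 8, (9 * (34 * x) + 8 * (34 * y) - 153) / 24,
          (63 - 3 * (34 * x) - 4 * (34 * y)) / 12, by linarith,
          by linarith, by linarith, by ring, ?_, ?_⟩ c2 <;> push_cast <;> ring
    · refine sound 60 34 (9, 9) (17, 17) (17, 3) _ _ (by norm_num)
        ⟨(17 - 34 * x) / 8, (3 * (34 * x) + 4 * (34 * y) - 63) / 56, (34 * x - 34 * y) / 14, by linarith,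
          by linarith, by linarith, by ring, ?_, ?_⟩ c3 <;> push_cast <;> ring
  refine ⟨(box.filter fun p => decide (G x y p)).toFinset, ?_, fun p hp => ?_⟩
  · rwa [List.toFinset_card_of_nodup (nd.filter _), ← List.countP_eq_length_filter,
      ← zero_add (List.countP _ _)]
  · simpa using (List.mem_filter.1 (List.mem_toFinset.1 hp)).2

theorem tr {x y u v : ℝ} (e : ℤ × ℤ ≃ ℤ × ℤ) (h : ∀ p, G x y p → G u v (e p)) : P x y → P u v :=
  fun ⟨S, h1, h2⟩ => ⟨S.map e.toEmbedding, by rwa [Finset.card_map], fun p hp => by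
    obtain ⟨q, hq, rfl⟩ := Finset.mem_map.1 hp
    exact h q (h2 q hq)⟩

theorem sw {x y : ℝ} : P x y → P y x := tr (Equiv.prodComm _ _) fun p h => by
  simp only [G, Equiv.prodComm_apply, Prod.fst_swap, Prod.snd_swap] at *
  linarith

theorem red {y : ℝ} (h : ∀ x, 0 ≤ x → x ≤ 1 / 2 → P x y) (x : ℝ) : P x y := by
  have a := h _ (abs_nonneg _) (abs_sub_round x)
  have b : P (x - round x) y := by
    rcases abs_choice (x - round x) with e | e <;> rw [e] at a
    · exact a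
    · refine tr ((Equiv.neg _).prodCongr (Equiv.refl _)) (fun p h => ?_) a
      simp only [G, Equiv.prodCongr_apply, Prod.map_fst, Prod.map_snd, Equiv.neg_apply, Equiv.refl_apply,
        Int.cast_neg] at *
      linarith
  refine tr ((Equiv.addRight (round x)).prodCongr (Equiv.refl _)) (fun p h => ?_) b
  simp only [G, Equiv.prodCongr_apply, Prod.map_fst, Prod.map_snd, Equiv.coe_addRight, Equiv.refl_apply,
    Int.cast_add] at *
  linarith

theorem all (x y : ℝ) : P x y :=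
  red (fun x h1 h2 => sw (red (fun y h3 h4 => (le_total x y).elim (fun h => base h1 h h4)
    fun h => sw (base h3 h h2)) y)) x

end Pool.Agent.H.MP_ab672e_co
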