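import Pool.Agent.H.MP_ab672e_co.Cover

namespace Pool.Agent.H.MP_ab672e_co

def L2 : List (ℤ × ℤ) := box.filter fun p => d2 (p.1 * 34, p.2 * 34) (17, 3) < 120250

theorem nL : (L2.all fun x => L2.all fun y => d2 x y != 392) = true := by
  have : ∀ y ∈ L2, 120250 ≤ d2 ((y.1 + 14) * 34, (y.2 + 14) * 34) (17, 3) ∧
    120250 ≤ d2 ((y.1 + 14) * 34, (y.2 - 14) * 34) (17, 3) := by decide +kernel
  simp only [List.all_eq_true, bne_iff_ne]
  intro x hx y hy h
  have a := this x hx
  have b := this y hy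
  have c := of_decide_eq_true (List.mem_filter.1 hx).2
  have d := of_decide_eq_true (List.mem_filter.1 hy).2
  have k : ∀ u v : ℤ, u * u + v * v = 392 → u = 14 ∨ u = -14 := fun u v h => by
    have h1 : -20 ≤ u := by nlinarith [mul_self_nonneg v]
    have h2 : u ≤ 20 := by nlinarith [mul_self_nonneg v]
    have h3 : -20 ≤ v := by nlinarith [mul_self_nonneg u]
    have h4 : v ≤ 20 := by nlinarith [mul_self_nonneg u]
    have : ∀ u ∈ Finset.Icc (-20 : ℤ) 20, ∀ v ∈ Finset.Icc (-20 : ℤ) 20, u * u + v * v = 392 →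
      u = 14 ∨ u = -14 := by decide +kernel
    exact this u (Finset.mem_Icc.2 ⟨h1, h2⟩) v (Finset.mem_Icc.2 ⟨h3, h4⟩) h
  rcases k _ _ h with e | e <;> rcases k _ _ ((add_comm _ _).trans h) with f | f
  · rw [show x.1 = y.1 + 14 by omega, show x.2 = y.2 + 14 by omega] at c
    exact c.not_ge b.1
  · rw [show x.1 = y.1 + 14 by omega, show x.2 = y.2 - 14 by omega] at c
    exact c.not_ge b.2
  · rw [show y.1 = x.1 + 14 by omega, show y.2 = x.2 - 14 by omega] at d
    exact d.not_ge a.2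
  · rw [show y.1 = x.1 + 14 by omega, show y.2 = x.2 + 14 by omega] at d
    exact d.not_ge a.1

end Pool.Agent.H.MP_ab672e_co
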